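import Pool.Agent.TH563.Z.OutX2
import Pool.Agent.TH563.V.Defs

/-!
# Job V-HX: the outer integral at a hub, uniformly in a parameter
-/

set_option autoImplicit false
set_option maxHeartbeats 1000000

namespace Pool.Agent.TH790.V

open Finset Filter Topology Metric
open Pool.Agent.W711.HT hiding XX
open Pool.Agent.TH563.UV
open Pool.Agent.TH563.Z
open Pool.Agent.W719.AX (UX cv)
open Pool.Agent.W85.HT hiding Rc_mono
open Pool.Agent.W293.HT
open Pool.Agent.W346.HT (IntP IntP_kr)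
open Pool.Agent.W21.AX (ux_comp ux_cst ux_small exp_small)
open Pool.Agent.W352.AX (pp_sub)
open scoped Real

/-- the estimate for one value of the parameter and one `N` -/
lemma loc_pt {η ρ τ : ℝ} (hρ : 0 < ρ) (hρ1 : ρ ≤ 1 / 4) (hτ : 0 < τ) (hητ : 3 * τ < η)
    {N : ℕ} {P PL : ℂ → ℂ} (hP : Differentiable ℂ P) (hPL : Differentiable ℂ PL)
    (hper : ∀ φ, PL (φ + 2 * π) = PL φ) {Φ : ℂ → ℂ} {z : ℂ} (hz : z ∈ Rz η ρ τ)
    {δ : ℝ} (hδ : 0 < δ) (hδρ : |z.re| + δ ≤ ρ) {V κ κ₂ κm : ℝ}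
    (hall : ∀ x : ℝ, |x| ≤ ρ → (qz Φ (x + z.im * Complex.I)).re ≤ V)
    (hout : ∀ x : ℝ, |x| ≤ ρ → δ ≤ |x - z.re| → (qz Φ (x + z.im * Complex.I)).re ≤ V - κ₂)
    (hκm0 : 0 < κm) (hκm1 : κm ≤ κ) (hκm2 : κm ≤ κ₂) (hκm3 : κm ≤ z.im)
    (h1 : ∀ w ∈ Rz η (2 * ρ) (2 * τ), PL w ≠ 0 ∧
      |Real.log ‖PL w‖ - N * (Φ w).re| ≤ κm / 4 * N)
    (h2 : ∀ x : ℝ, ρ ≤ |x| → |x| ≤ π →
      ‖PL (x + z.im * Complex.I)‖ ≤ Real.exp (N * (V + z.im - κ)))
    (h3 : ‖upp (1 / N) fun φ => (P φ - PL φ) * kr N φ‖ ≤ Real.exp (N * (V - κ)))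
    (h4 : (1 : ℝ) / N ≤ z.im) (h5 : 0 < N)
    (h6 : 1 + 16 * Real.exp z.im * π + 32 * Real.exp z.im * ρ + 40 * Real.exp z.im * δ ≤
      Real.exp (κm / 4 * N)) :
    ‖(upp (1 / N) fun φ => P φ * kr N φ) - (-1) ^ N * ∫ x in (-δ)..δ,
        2 * Complex.sin (z + x) * Complex.exp (Complex.I * N * (z + x)) * PL (z + x)‖ ≤
        Real.exp (N * (V - κm / 2)) := by
  have hπ := Real.pi_gt_three
  have hzr := hz.1
  have hzi := abs_lt.1 hz.2
  have hz0 : 0 < z.im := by linarith [hzi.1]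
  have hzre := abs_le.1 (le_of_eq_of_le rfl (show |z.re| ≤ ρ - δ by linarith))
  have hin : ∀ x : ℝ, |x| ≤ ρ → (x : ℂ) + z.im * Complex.I ∈ Rz η (2 * ρ) (2 * τ) := by
    intro x hx
    refine ⟨?_, ?_⟩
    · rw [xy_re]; linarith
    · rw [xy_im]; linarith [hz.2]
  have hzz : (z.re : ℂ) + z.im * Complex.I = z := Complex.re_add_im z
  have hcl : Continuous fun x : ℝ => ((x : ℂ) + z.im * Complex.I) := by fun_prop
  have hqre : ∀ w : ℂ, (Φ w).re = (qz Φ w).re + w.im := by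
    intro w
    unfold qz
    rw [Complex.add_re]
    simp
  obtain ⟨H, hH⟩ : ∃ H : ℝ, H = Real.exp z.im := ⟨_, rfl⟩
  have hH0 : 0 < H := by rw [hH]; exact Real.exp_pos _
  obtain ⟨CC, hCC⟩ : ∃ CC : ℝ, CC = 1 + 16 * H * π + 32 * H * ρ + 40 * H * δ := ⟨_, rfl⟩
  rw [← hH, ← hCC] at h6
  have hN' : (0 : ℝ) < N := by exact_mod_cast h5
  obtain ⟨E, hE⟩ : ∃ E : ℝ, E = Real.exp (N * (V - 3 / 4 * κm)) := ⟨_, rfl⟩
  have hE0 : 0 < E := by rw [hE]; exact Real.exp_pos _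
  have hEle : ∀ e : ℝ, e ≤ V - 3 / 4 * κm → Real.exp (N * e) ≤ E := by
    intro e he
    rw [hE]
    exact Real.exp_le_exp.2 (mul_le_mul_of_nonneg_left he hN'.le)
  -- splitting
  have e1 : (upp (1 / N) fun φ => P φ * kr N φ) =
      (upp (1 / N) fun φ => (P φ - PL φ) * kr N φ) + upp (1 / N) fun φ => PL φ * kr N φ := by
    have k0 := upp_add (h := 1 / N) (f := fun φ => (P φ - PL φ) * kr N φ)
      (g := fun φ => PL φ * kr N φ)
      (IntP_kr (g := fun φ => P φ - PL φ) h5 ((hP).continuous.sub (hPL).continuous))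
      (IntP_kr h5 (hPL).continuous)
    rw [← k0]
    congr 1
    funext φ
    ring
  rw [e1, shift h5 (hPL) (hper) h4]
  obtain ⟨f, hf⟩ : ∃ f : ℝ → ℂ, f = fun x : ℝ => PL (x + z.im * Complex.I) *
    kr N (x + z.im * Complex.I) := ⟨_, rfl⟩
  have hfc : Continuous f := by
    rw [hf]
    refine ((hPL).continuous.comp hcl).mul ?_
    rw [continuous_iff_continuousAt]
    intro x
    have k1 : ContinuousAt (kr N) ((x : ℂ) + z.im * Complex.I) :=
      (kr_diff h5 (by rw [xy_im]; exact hz0)).continuousAt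
    exact ContinuousAt.comp (f := fun x : ℝ => ((x : ℂ) + z.im * Complex.I)) (g := kr N) k1
      hcl.continuousAt
  have hint : ∀ a b : ℝ, IntervalIntegrable f MeasureTheory.volume a b := fun a b =>
    hfc.intervalIntegrable a b
  have e2 : (∫ x in (-π)..π, PL (x + z.im * Complex.I) * kr N (x + z.im * Complex.I)) =
      (∫ x in (-π)..(-ρ), f x) + (∫ x in (-ρ)..(z.re - δ), f x) +
        (∫ x in (z.re - δ)..(z.re + δ), f x) + (∫ x in (z.re + δ)..ρ, f x) + ∫ x in ρ..π, f x := by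
    rw [intervalIntegral.integral_add_adjacent_intervals (hint _ _) (hint _ _),
      intervalIntegral.integral_add_adjacent_intervals (hint _ _) (hint _ _),
      intervalIntegral.integral_add_adjacent_intervals (hint _ _) (hint _ _),
      intervalIntegral.integral_add_adjacent_intervals (hint _ _) (hint _ _), hf]
  -- bounds
  have hkr : ∀ x : ℝ, ‖kr N (x + z.im * Complex.I)‖ ≤ 8 * H * Real.exp (-(N * z.im)) := by
    intro x
    have k2 := kr_bd h5 (H := z.im) (w := (x : ℂ) + z.im * Complex.I)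
      (by rw [xy_im]; exact h4) (by rw [xy_im])
    rw [xy_im] at k2
    rw [hH]
    exact k2
  have hPLb : ∀ x : ℝ, |x| ≤ ρ → ‖PL (x + z.im * Complex.I)‖ ≤
      Real.exp (N * ((qz Φ (x + z.im * Complex.I)).re + z.im + κm / 4)) := by
    intro x hx
    obtain ⟨k1, k2⟩ := h1 _ (hin x hx)
    have k3 := (abs_le.1 k2).2
    rw [hqre, xy_im] at k3
    rw [← Real.log_le_iff_le_exp (norm_pos_iff.2 k1)]
    linarith
  have hbf : ∀ x : ℝ, ρ ≤ |x| → |x| ≤ π → ‖f x‖ ≤ 8 * H * E := by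
    intro x hx1 hx2
    rw [hf]
    show ‖PL ((x : ℂ) + z.im * Complex.I) * kr N ((x : ℂ) + z.im * Complex.I)‖ ≤ _
    rw [norm_mul]
    refine (mul_le_mul (h2 x hx1 hx2) (hkr x) (norm_nonneg _) (Real.exp_pos _).le).trans ?_
    have : Real.exp (N * (V + z.im - κ)) * (8 * H * Real.exp (-(N * z.im))) =
        8 * H * Real.exp (N * (V - κ)) := by
      have : Real.exp (N * (V - κ)) = Real.exp (N * (V + z.im - κ)) * Real.exp (-(N * z.im)) := by
        rw [← Real.exp_add]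
        congr 1
        ring
      rw [this]
      ring
    rw [this]
    exact mul_le_mul_of_nonneg_left (hEle _ (by linarith)) (by positivity)
  have hbo : ∀ x : ℝ, |x| ≤ ρ → δ ≤ |x - z.re| → ‖f x‖ ≤ 8 * H * E := by
    intro x hx1 hx2
    rw [hf]
    show ‖PL ((x : ℂ) + z.im * Complex.I) * kr N ((x : ℂ) + z.im * Complex.I)‖ ≤ _
    rw [norm_mul]
    refine (mul_le_mul (hPLb x hx1) (hkr x) (norm_nonneg _) (Real.exp_pos _).le).trans ?_
    obtain ⟨G, hG⟩ : ∃ G : ℝ, G = (qz Φ (x + z.im * Complex.I)).re := ⟨_, rfl⟩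
    have k1 := hout x hx1 hx2
    rw [← hG] at k1 ⊢
    have : Real.exp (N * (G + z.im + κm / 4)) * (8 * H * Real.exp (-(N * z.im))) =
        8 * H * Real.exp (N * (G + κm / 4)) := by
      have : Real.exp (N * (G + κm / 4)) =
          Real.exp (N * (G + z.im + κm / 4)) * Real.exp (-(N * z.im)) := by
        rw [← Real.exp_add]
        congr 1
        ring
      rw [this]
      ring
    rw [this]
    exact mul_le_mul_of_nonneg_left (hEle _ (by linarith)) (by positivity)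
  obtain ⟨g, hg⟩ : ∃ g : ℝ → ℂ, g = fun x : ℝ => (-1) ^ N * (2 * Complex.sin (z + x) *
    Complex.exp (Complex.I * N * (z + x)) * PL (z + x)) := ⟨_, rfl⟩
  have hgc : Continuous g := by
    rw [hg]
    have c1 : Continuous fun x : ℝ => z + (x : ℂ) := by fun_prop
    have c2 : Continuous fun x : ℝ => PL (z + x) := (hPL).continuous.comp c1
    exact continuous_const.mul (((continuous_const.mul (Complex.continuous_sin.comp c1)).mul
      (Complex.continuous_exp.comp (continuous_const.mul c1))).mul c2)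
  have e3 : (∫ x in (z.re - δ)..(z.re + δ), f x) = ∫ x in (-δ)..δ, f (x + z.re) := by
    rw [intervalIntegral.integral_comp_add_right]
    congr 1 <;> ring
  have hbm : ∀ x : ℝ, |x| ≤ δ → ‖f (x + z.re) - g x‖ ≤ 20 * H * E := by
    intro x hx
    obtain ⟨w, hw⟩ : ∃ w : ℂ, w = z + x := ⟨_, rfl⟩
    have hw1 : ((x + z.re : ℝ) : ℂ) + z.im * Complex.I = w := by
      rw [hw]
      nth_rewrite 3 [← hzz]
      push_cast
      ring
    have hx3 : |x + z.re| ≤ ρ := by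
      have := abs_add_le x z.re
      linarith
    have hwim : w.im = z.im := by
      rw [hw]; simp
    have k1 : f (x + z.re) - g x = PL w * (uu N w * (pp N w - 2 * Complex.sin w)) := by
      rw [hf, hg]
      show PL (((x + z.re : ℝ) : ℂ) + z.im * Complex.I) *
        kr N (((x + z.re : ℝ) : ℂ) + z.im * Complex.I) - (-1) ^ N * (2 * Complex.sin (z + x) *
        Complex.exp (Complex.I * N * (z + x)) * PL (z + x)) = _
      rw [hw1, ← hw, kr_eq, uu_neg]
      ring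
    have hun : ‖uu N w‖ = Real.exp (-(N * z.im)) := by rw [norm_uu, hwim]
    have hu2 : ‖uu N w‖ ≤ 1 / 2 := by
      rw [hun]
      have m1 : (1 : ℝ) ≤ N * z.im := by
        rw [div_le_iff₀ hN'] at h4
        linarith
      have m2 : Real.exp (-(N * z.im)) ≤ Real.exp (-1) := Real.exp_le_exp.2 (by linarith)
      have m3 : Real.exp (-1) ≤ 1 / 2 := by
        rw [Real.exp_neg, ← one_div]
        apply one_div_le_one_div_of_le (by norm_num)
        have := Real.add_one_le_exp (1 : ℝ)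
        linarith
      linarith
    have k2 := pp_sub (N := N) (w := w) (τ := z.im) (by rw [hwim]; exact hz0.le) (by rw [hwim]) hu2
    have k3 := hPLb (x + z.re) hx3
    rw [hw1] at k3
    have k4 : (qz Φ w).re ≤ V := by
      rw [← hw1]
      exact hall _ hx3
    rw [k1, norm_mul, norm_mul]
    have k5 : ‖uu N w‖ * ‖pp N w - 2 * Complex.sin w‖ ≤
        20 * H * (Real.exp (-(N * z.im)) * Real.exp (-(N * z.im))) := by
      rw [hun] at k2 ⊢
      rw [hH]
      calc _ ≤ Real.exp (-(N * z.im)) * (20 * Real.exp z.im * Real.exp (-(N * z.im))) :=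
            mul_le_mul_of_nonneg_left k2 (Real.exp_pos _).le
        _ = _ := by ring
    refine (mul_le_mul k3 k5 (by positivity) (Real.exp_pos _).le).trans ?_
    have k6 : Real.exp (N * ((qz Φ w).re + z.im + κm / 4)) *
        (20 * H * (Real.exp (-(N * z.im)) * Real.exp (-(N * z.im)))) =
        20 * H * Real.exp (N * ((qz Φ w).re - z.im + κm / 4)) := by
      have : Real.exp (N * ((qz Φ w).re - z.im + κm / 4)) =
          Real.exp (N * ((qz Φ w).re + z.im + κm / 4)) *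
            (Real.exp (-(N * z.im)) * Real.exp (-(N * z.im))) := by
        rw [← Real.exp_add, ← Real.exp_add]
        congr 1
        ring
      rw [this]
      ring
    rw [k6]
    exact mul_le_mul_of_nonneg_left (hEle _ (by linarith)) (by positivity)
  -- the parts
  have b1 : ‖∫ x in (-π)..(-ρ), f x‖ ≤ 8 * H * E * π := by
    refine (intervalIntegral.norm_integral_le_of_norm_le_const (C := 8 * H * E) (by
      intro x hx
      rw [Set.uIoc_of_le (by linarith)] at hx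
      have hx0 : x ≤ 0 := by linarith [hx.2]
      exact hbf x (by rw [abs_of_nonpos hx0]; linarith [hx.2])
        (by rw [abs_of_nonpos hx0]; linarith [hx.1]))).trans ?_
    apply mul_le_mul_of_nonneg_left _ (by positivity)
    rw [abs_of_nonneg (by linarith)]
    linarith
  have b2 : ‖∫ x in ρ..π, f x‖ ≤ 8 * H * E * π := by
    refine (intervalIntegral.norm_integral_le_of_norm_le_const (C := 8 * H * E) (by
      intro x hx
      rw [Set.uIoc_of_le (by linarith)] at hx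
      have hx0 : 0 ≤ x := by linarith [hx.1]
      exact hbf x (by rw [abs_of_nonneg hx0]; linarith [hx.1])
        (by rw [abs_of_nonneg hx0]; linarith [hx.2]))).trans ?_
    apply mul_le_mul_of_nonneg_left _ (by positivity)
    rw [abs_of_nonneg (by linarith)]
    linarith
  have b3 : ‖∫ x in (-ρ)..(z.re - δ), f x‖ ≤ 8 * H * E * (2 * ρ) := by
    refine (intervalIntegral.norm_integral_le_of_norm_le_const (C := 8 * H * E) (by
      intro x hx
      rw [Set.uIoc_of_le (by linarith [hzre.1])] at hx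
      refine hbo x (abs_le.2 ⟨hx.1.le, by linarith [hx.2, hzre.2]⟩) ?_
      rw [abs_of_nonpos (by linarith [hx.2])]
      linarith [hx.2])).trans ?_
    apply mul_le_mul_of_nonneg_left _ (by positivity)
    rw [abs_of_nonneg (by linarith [hzre.1])]
    linarith [hzre.2]
  have b4 : ‖∫ x in (z.re + δ)..ρ, f x‖ ≤ 8 * H * E * (2 * ρ) := by
    refine (intervalIntegral.norm_integral_le_of_norm_le_const (C := 8 * H * E) (by
      intro x hx
      rw [Set.uIoc_of_le (by linarith [hzre.2])] at hx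
      refine hbo x (abs_le.2 ⟨by linarith [hx.1, hzre.1], hx.2⟩) ?_
      rw [abs_of_nonneg (by linarith [hx.1])]
      linarith [hx.1])).trans ?_
    apply mul_le_mul_of_nonneg_left _ (by positivity)
    rw [abs_of_nonneg (by linarith [hzre.2])]
    linarith [hzre.1]
  have b5 : ‖(∫ x in (-δ)..δ, f (x + z.re)) - ∫ x in (-δ)..δ, g x‖ ≤ 20 * H * E * (2 * δ) := by
    have hfc2 : Continuous fun x : ℝ => f (x + z.re) := hfc.comp (by fun_prop)
    rw [← intervalIntegral.integral_sub (hfc2.intervalIntegrable _ _)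
      (hgc.intervalIntegrable _ _)]
    refine (intervalIntegral.norm_integral_le_of_norm_le_const (C := 20 * H * E) (by
      intro x hx
      rw [Set.uIoc_of_le (by linarith)] at hx
      exact hbm x (abs_le.2 ⟨hx.1.le, hx.2⟩))).trans ?_
    apply mul_le_mul_of_nonneg_left _ (by positivity)
    rw [abs_of_nonneg (by linarith)]
    linarith
  have e4 : (-1 : ℂ) ^ N * ∫ x in (-δ)..δ, 2 * Complex.sin (z + x) *
      Complex.exp (Complex.I * N * (z + x)) * PL (z + x) = ∫ x in (-δ)..δ, g x := by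
    rw [hg, ← intervalIntegral.integral_const_mul]
  have b0 : ‖upp (1 / N) fun φ => (P φ - PL φ) * kr N φ‖ ≤ E :=
    h3.trans (hEle _ (by linarith))
  rw [e2, e3, e4]
  obtain ⟨T0, hT0⟩ : ∃ T : ℂ, T = upp (1 / N) fun φ => (P φ - PL φ) * kr N φ := ⟨_, rfl⟩
  obtain ⟨T1, hT1⟩ : ∃ T : ℂ, T = ∫ x in (-π)..(-ρ), f x := ⟨_, rfl⟩
  obtain ⟨T2, hT2⟩ : ∃ T : ℂ, T = ∫ x in (-ρ)..(z.re - δ), f x := ⟨_, rfl⟩
  obtain ⟨T3, hT3⟩ : ∃ T : ℂ, T = ∫ x in (-δ)..δ, f (x + z.re) := ⟨_, rfl⟩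
  obtain ⟨T4, hT4⟩ : ∃ T : ℂ, T = ∫ x in (z.re + δ)..ρ, f x := ⟨_, rfl⟩
  obtain ⟨T5, hT5⟩ : ∃ T : ℂ, T = ∫ x in ρ..π, f x := ⟨_, rfl⟩
  obtain ⟨T6, hT6⟩ : ∃ T : ℂ, T = ∫ x in (-δ)..δ, g x := ⟨_, rfl⟩
  rw [← hT0] at b0 ⊢
  rw [← hT1] at b1 ⊢
  rw [← hT2] at b3 ⊢
  rw [← hT3] at b5 ⊢
  rw [← hT4] at b4 ⊢
  rw [← hT5] at b2 ⊢
  rw [← hT6] at b5 ⊢
  have e5 : T0 + (T1 + T2 + T3 + T4 + T5) - T6 = T0 + T1 + T2 + (T3 - T6) + T4 + T5 := by ring
  rw [e5]
  have k1 := norm_add_le (T0 + T1 + T2 + (T3 - T6) + T4) T5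
  have k2 := norm_add_le (T0 + T1 + T2 + (T3 - T6)) T4
  have k3 := norm_add_le (T0 + T1 + T2) (T3 - T6)
  have k4 := norm_add_le (T0 + T1) T2
  have k5 := norm_add_le T0 T1
  have k6 : CC * E ≤ Real.exp (κm / 4 * N) * E := mul_le_mul_of_nonneg_right h6 hE0.le
  have k7 : Real.exp (κm / 4 * N) * E = Real.exp (N * (V - κm / 2)) := by
    rw [hE, ← Real.exp_add]
    congr 1
    ring
  rw [k7, hCC] at k6
  have k8 : (1 + 16 * H * π + 32 * H * ρ + 40 * H * δ) * E = E + 8 * H * E * π + 8 * H * E * π +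
      8 * H * E * (2 * ρ) + 8 * H * E * (2 * ρ) + 20 * H * E * (2 * δ) := by ring
  rw [k8] at k6
  linarith


/-- localisation at the critical point of the hub, uniformly in a parameter -/
theorem loc_zu {η ρ τ : ℝ} (hρ : 0 < ρ) (hρ1 : ρ ≤ 1 / 4) (hτ : 0 < τ) (hητ : 3 * τ < η)
    {K : Set ℂ} (hK : IsCompact K) {P PL : ℕ → ℂ → ℂ → ℂ}
    (hP : ∀ N, ∀ p ∈ K, Differentiable ℂ (P N p)) (hPL : ∀ N, ∀ p ∈ K, Differentiable ℂ (PL N p))
    (hper : ∀ N, ∀ p ∈ K, ∀ φ, PL N p (φ + 2 * π) = PL N p φ) {Φ : ℂ → ℂ → ℂ}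
    (hΦc : ContinuousOn (fun x : ℂ × ℂ => Φ x.1 x.2) (K ×ˢ Rz η (3 * ρ) (3 * τ)))
    {z : ℂ → ℂ} (hzc : ContinuousOn z K)
    (hmw : ∀ ε : ℝ, 0 < ε → ∀ᶠ N : ℕ in atTop, ∀ p ∈ K, ∀ φ ∈ Rz η (2 * ρ) (2 * τ),
      PL N p φ ≠ 0 ∧ |Real.log ‖PL N p φ‖ - N * (Φ p φ).re| ≤ ε * N)
    (hz : ∀ p ∈ K, z p ∈ Rz η ρ τ)
    (hline : ∀ p ∈ K, ∀ x : ℝ, |x| ≤ ρ → x ≠ (z p).re →
      (qz (Φ p) (x + (z p).im * Complex.I)).re < (qz (Φ p) (z p)).re)
    {κ : ℝ} (hκ : 0 < κ)
    (hfar : ∀ᶠ N : ℕ in atTop, ∀ p ∈ K, ∀ x : ℝ, ρ ≤ |x| → |x| ≤ π →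
      ‖PL N p (x + (z p).im * Complex.I)‖ ≤
        Real.exp (N * ((qz (Φ p) (z p)).re + (z p).im - κ)))
    (hrem : ∀ᶠ N : ℕ in atTop, ∀ p ∈ K,
      ‖upp (1 / N) fun φ => (P N p φ - PL N p φ) * kr N φ‖ ≤
        Real.exp (N * ((qz (Φ p) (z p)).re - κ)))
    {δ : ℝ} (hδ : 0 < δ) (hδρ : ∀ p ∈ K, |(z p).re| + δ ≤ ρ) :
    ∃ κ' : ℝ, 0 < κ' ∧ ∀ᶠ N : ℕ in atTop, ∀ p ∈ K,
      ‖(upp (1 / N) fun φ => P N p φ * kr N φ) - (-1) ^ N * ∫ x in (-δ)..δ,
        2 * Complex.sin (z p + x) * Complex.exp (Complex.I * N * (z p + x)) *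
          PL N p (z p + x)‖ ≤ Real.exp (N * ((qz (Φ p) (z p)).re - κ')) := by
  have hπ := Real.pi_gt_three
  -- continuity of the real part of the potential
  have hqc : ContinuousOn (fun x : ℂ × ℂ => (qz (Φ x.1) x.2).re)
      (K ×ˢ Rz η (3 * ρ) (3 * τ)) := by
    apply Complex.continuous_re.comp_continuousOn
    unfold qz
    apply ContinuousOn.add _ hΦc
    fun_prop
  have him : ∀ p ∈ K, 2 * τ < (z p).im ∧ (z p).im < η + τ ∧ |(z p).im - η| < τ ∧
      |(z p).re| < ρ := by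
    intro p hp
    have h := hz p hp
    have h2 := abs_lt.1 h.2
    exact ⟨by linarith [h2.1], by linarith [h2.2], h.2, h.1⟩
  -- the gap on the line
  obtain ⟨κ₂, hκ₂, hout⟩ : ∃ κ : ℝ, 0 < κ ∧ ∀ p ∈ K, ∀ x : ℝ, |x| ≤ ρ → δ ≤ |x - (z p).re| →
      (qz (Φ p) (x + (z p).im * Complex.I)).re ≤ (qz (Φ p) (z p)).re - κ := by
    obtain ⟨S, hS⟩ : ∃ S : Set (ℂ × ℝ), S = (K ×ˢ Set.Icc (-ρ) ρ) ∩
      (fun x : ℂ × ℝ => |x.2 - (z x.1).re|) ⁻¹' Set.Ici δ := ⟨_, rfl⟩
    have hKI : IsCompact (K ×ˢ Set.Icc (-ρ) ρ) := hK.prod isCompact_Icc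
    have hz' : ContinuousOn (fun x : ℂ × ℝ => z x.1) (K ×ˢ Set.Icc (-ρ) ρ) :=
      hzc.comp continuousOn_fst fun x hx => hx.1
    have hSc : IsCompact S := by
      rw [hS]
      refine hKI.of_isClosed_subset ?_ Set.inter_subset_left
      apply ContinuousOn.preimage_isClosed_of_isClosed _ hKI.isClosed isClosed_Ici
      apply ContinuousOn.abs
      exact continuousOn_snd.sub (Complex.continuous_re.comp_continuousOn hz')
    have hzS : ContinuousOn (fun x : ℂ × ℝ => z x.1) S := hz'.mono (by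
      rw [hS]; exact Set.inter_subset_left)
    have hc : ContinuousOn (fun x : ℂ × ℝ => (qz (Φ x.1) (z x.1)).re -
        (qz (Φ x.1) ((x.2 : ℂ) + (z x.1).im * Complex.I)).re) S := by
      apply ContinuousOn.sub
      · refine hqc.comp (f := fun x : ℂ × ℝ => (x.1, z x.1))
          (ContinuousOn.prodMk continuousOn_fst hzS) ?_
        intro x hx
        rw [hS] at hx
        have h := him x.1 hx.1.1
        exact ⟨hx.1.1, ⟨by linarith [h.2.2.2], by linarith [h.2.2.1]⟩⟩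
      · refine hqc.comp (f := fun x : ℂ × ℝ =>
          (x.1, (x.2 : ℂ) + ((z x.1).im : ℂ) * Complex.I))
          (ContinuousOn.prodMk continuousOn_fst ?_) ?_
        · have hz2 : ContinuousOn (fun x : ℂ × ℝ => (z x.1).im) S :=
            Complex.continuous_im.comp_continuousOn hzS
          exact (Complex.continuous_ofReal.comp_continuousOn continuousOn_snd).add
            ((Complex.continuous_ofReal.comp_continuousOn hz2).mul continuousOn_const)
        · intro x hx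
          rw [hS] at hx
          have h := him x.1 hx.1.1
          have hx2 := hx.1.2
          rw [Set.mem_Icc, ← abs_le] at hx2
          refine ⟨hx.1.1, ⟨?_, ?_⟩⟩
          · show |((x.2 : ℂ) + ((z x.1).im : ℂ) * Complex.I).re| < 3 * ρ
            rw [xy_re]
            linarith
          · show |((x.2 : ℂ) + ((z x.1).im : ℂ) * Complex.I).im - η| < 3 * τ
            rw [xy_im]
            linarith [h.2.2.1]
    obtain ⟨κ, h1, h2⟩ := hSc.exists_forall_le' hc (a := 0) (by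
      intro x hx
      rw [hS] at hx
      have hx2 := hx.1.2
      rw [Set.mem_Icc, ← abs_le] at hx2
      have hx3 : δ ≤ |x.2 - (z x.1).re| := hx.2
      have := hline x.1 hx.1.1 x.2 hx2 (by
        intro h0
        rw [h0, sub_self, abs_zero] at hx3
        linarith)
      exact sub_pos.2 this)
    refine ⟨κ, h1, fun p hp x hx hx' => ?_⟩
    have h3 := h2 (p, x) (by
      rw [hS]
      refine ⟨⟨hp, ?_⟩, hx'⟩
      rw [Set.mem_Icc, ← abs_le]
      exact hx)
    simp only at h3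
    linarith
  have hall : ∀ p ∈ K, ∀ x : ℝ, |x| ≤ ρ →
      (qz (Φ p) (x + (z p).im * Complex.I)).re ≤ (qz (Φ p) (z p)).re := by
    intro p hp x hx
    by_cases h : x = (z p).re
    · rw [h, Complex.re_add_im]
    · exact (hline p hp x hx h).le
  obtain ⟨κm, hκm⟩ : ∃ κm : ℝ, κm = min κ (min κ₂ (2 * τ)) := ⟨_, rfl⟩
  have hκm0 : 0 < κm := by rw [hκm]; exact lt_min hκ (lt_min hκ₂ (by linarith))
  have hκm1 : κm ≤ κ := by rw [hκm]; exact min_le_left _ _
  have hκm2 : κm ≤ κ₂ := by rw [hκm]; exact (min_le_right _ _).trans (min_le_left _ _)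
  have hκm3 : κm ≤ 2 * τ := by rw [hκm]; exact (min_le_right _ _).trans (min_le_right _ _)
  obtain ⟨H, hH⟩ : ∃ H : ℝ, H = Real.exp (η + τ) := ⟨_, rfl⟩
  refine ⟨κm / 2, by positivity, ?_⟩
  have hev : ∀ᶠ N : ℕ in atTop, (1 : ℝ) / N ≤ 2 * τ := by
    have : Tendsto (fun N : ℕ => (1 : ℝ) / (N : ℝ)) atTop (𝓝 0) :=
      tendsto_const_div_atTop_nhds_zero_nat _
    exact (this.eventually_lt_const (show (0 : ℝ) < 2 * τ by linarith)).mono (fun N hN => hN.le)
  filter_upwards [hmw (κm / 4) (by positivity), hfar, hrem, hev, eventually_gt_atTop 0,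
    ev_exp (show 0 < κm / 4 by positivity) (1 + 16 * H * π + 32 * H * ρ + 40 * H * δ)]
    with N h1 h2 h3 h4 h5 h6 p hp
  obtain ⟨i1, i2, i3, i4⟩ := him p hp
  have hexp : Real.exp (z p).im ≤ H := by rw [hH]; exact Real.exp_le_exp.2 i2.le
  refine loc_pt hρ hρ1 hτ hητ (hP N p hp) (hPL N p hp) (hper N p hp) (hz p hp) hδ (hδρ p hp)
    (hall p hp) (hout p hp) hκm0 hκm1 hκm2 (hκm3.trans i1.le) (h1 p hp) (h2 p hp) (h3 p hp)
    (h4.trans i1.le) h5 (le_trans ?_ h6)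
  gcongr

end Pool.Agent.TH790.V
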