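import Pool.Agent.TH790.V.HX1

/-!
# Job V-HX: the outer integral at a hub, uniformly in a parameter
-/

set_option autoImplicit false
set_option maxHeartbeats 1000000

namespace Pool.Agent.TH790.V

open Finset Filter Topology Metric
open Pool.Agent.W711.HT hiding XX
open Pool.Agent.TH563.UV
open Pool.Agent.TH563.Z
open Pool.Agent.W719.AX (UX cv)
open Pool.Agent.W85.HT hiding Rc_mono
open Pool.Agent.W293.HT
open Pool.Agent.W21.AX (ux_comp ux_cst ux_small exp_small)
open scoped Real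

/-- continuity of the second derivative -/
lemma cont2g {g : ℂ → ℂ → ℂ} {U V K : Set ℂ} (hU : IsOpen U) (hVc : IsCompact V)
    (hUV : U ⊆ V) (hd : ∀ p ∈ K, DifferentiableOn ℂ (g p) U)
    (hsc : ContinuousOn (fun x : ℂ × ℂ => g x.1 x.2) (K ×ˢ V)) (hK : IsCompact K)
    {z : ℂ → ℂ} (hz : ContinuousOn z K) (hzU : ∀ p ∈ K, z p ∈ U) :
    ContinuousOn (fun p => deriv (deriv (g p)) (z p)) K := by
  intro p₀ hp₀
  have h1 : TendstoUniformlyOn (fun p => g p) (g p₀) (𝓝[K] p₀) U := by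
    rw [Metric.tendstoUniformlyOn_iff]
    intro ε hε
    have huc := (hK.prod hVc).uniformContinuousOn_of_continuous hsc
    rw [Metric.uniformContinuousOn_iff] at huc
    obtain ⟨δ, hδ, hδ2⟩ := huc ε hε
    filter_upwards [self_mem_nhdsWithin, mem_nhdsWithin_of_mem_nhds (ball_mem_nhds p₀ hδ)] with
      p hp1 hp2 w hw
    exact hδ2 (p₀, w) ⟨hp₀, hUV hw⟩ (p, w) ⟨hp1, hUV hw⟩ (by
      rw [Prod.dist_eq, dist_self]
      rw [mem_ball, dist_comm] at hp2
      exact max_lt hp2 hδ)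
  have hev : ∀ᶠ p in 𝓝[K] p₀, p ∈ K := self_mem_nhdsWithin
  have h2 := h1.tendstoLocallyUniformlyOn.deriv (hev.mono fun p hp => hd p hp) hU
  have h3 := h2.deriv (hev.mono fun p hp => (hd p hp).deriv hU) hU
  have h4 : ContinuousWithinAt (deriv (deriv (g p₀))) U (z p₀) :=
    ((hd p₀ hp₀).deriv hU).deriv hU |>.continuousOn _ (hzU p₀ hp₀)
  exact h3.tendsto_comp h4 (hzU p₀ hp₀)
    (tendsto_nhdsWithin_iff.2 ⟨hz p₀ hp₀, hev.mono fun p hp => hzU p hp⟩)

/-- **V-HX.** -/
theorem hx : Pool.Agent.TH563.V.S_HX := by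
  intro η ρ τ hρ hρ1 hτ hητ K V hK hVK P PL Φ z n hP hPL hper hΦ hΦc hzc hmw hzz hfr hn
    ρ₃ τ₃ A hA hAd hAnz hz3
  rcases K.eq_empty_or_nonempty with he | hne
  · have hVe : ∀ p, p ∉ V := fun p hp => by
      have := hVK hp
      rw [he] at this
      exact this.elim
    exact ⟨fun _ _ => 1, fun p hp => (hVe p hp).elim, fun _ => ⟨0,
      Eventually.of_forall fun N p hp => (hVe p hp).elim⟩⟩
  obtain ⟨κ, hκ, hfar, hrem⟩ := hfr
  have hz : ∀ p ∈ K, z p ∈ Rz η ρ τ := fun p hp => (hzz p hp).1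
  have hcrit : ∀ p ∈ K, deriv (qz (Φ p)) (z p) = 0 := fun p hp => (hzz p hp).2.1
  have hneg : ∀ p ∈ K, (deriv (deriv (qz (Φ p))) (z p)).re < 0 := fun p hp => (hzz p hp).2.2.1
  have hline := fun p hp => (hzz p hp).2.2.2
  have hz0 : ∀ p ∈ K, 0 < (z p).im := by
    intro p hp
    have := (abs_lt.1 (hz p hp).2).1
    linarith
  have hqd : ∀ p ∈ K, DifferentiableOn ℂ (qz (Φ p)) (Rz η (3 * ρ) (3 * τ)) := by
    intro p hp
    unfold qz
    exact (differentiable_id.const_mul Complex.I).differentiableOn.add (hΦ p hp)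
  have hqc : ContinuousOn (fun x : ℂ × ℂ => qz (Φ x.1) x.2) (K ×ˢ Rz η (3 * ρ) (3 * τ)) := by
    unfold qz
    apply ContinuousOn.add _ hΦc
    fun_prop
  -- a uniform radius
  obtain ⟨δ, hδ0, hδ⟩ : ∃ δ : ℝ, 0 < δ ∧ ∀ p ∈ K, δ ≤ min (min (ρ - |(z p).re|)
      (τ - |(z p).im - η|)) (min (ρ₃ - |(z p).re|) (τ₃ - |(z p).im - η|)) := by
    refine hK.exists_forall_le' ?_ ?_
    · have c1 : ContinuousOn (fun p => |(z p).re|) K :=
        (Complex.continuous_re.comp_continuousOn hzc).abs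
      have c2 : ContinuousOn (fun p => |(z p).im - η|) K :=
        ((Complex.continuous_im.comp_continuousOn hzc).sub continuousOn_const).abs
      exact ((continuousOn_const.sub c1).inf (continuousOn_const.sub c2)).inf
        ((continuousOn_const.sub c1).inf (continuousOn_const.sub c2))
    · intro p hp
      have h1 := hz p hp
      have h2 := hz3 p hp
      exact lt_min (lt_min (by linarith [h1.1]) (by linarith [h1.2]))
        (lt_min (by linarith [h2.1]) (by linarith [h2.2]))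
  have hδ1 : ∀ p ∈ K, |(z p).re| + δ ≤ ρ := by
    intro p hp
    have := (hδ p hp).trans ((min_le_left _ _).trans (min_le_left _ _))
    linarith
  have hδ2 : ∀ p ∈ K, |(z p).im - η| + δ ≤ τ := by
    intro p hp
    have := (hδ p hp).trans ((min_le_left _ _).trans (min_le_right _ _))
    linarith
  have hδ3 : ∀ p ∈ K, |(z p).re| + δ ≤ ρ₃ := by
    intro p hp
    have := (hδ p hp).trans ((min_le_right _ _).trans (min_le_left _ _))
    linarith
  have hδ4 : ∀ p ∈ K, |(z p).im - η| + δ ≤ τ₃ := by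
    intro p hp
    have := (hδ p hp).trans ((min_le_right _ _).trans (min_le_right _ _))
    linarith
  have hball : ∀ p ∈ K, ∀ u ∈ ball (0 : ℂ) δ, z p + u ∈ Rz η ρ τ ∧ z p + u ∈ Rz η ρ₃ τ₃ := by
    intro p hp u hu
    rw [mem_ball, dist_zero_right] at hu
    have h1 := (Complex.abs_re_le_norm u).trans_lt hu
    have h2 := (Complex.abs_im_le_norm u).trans_lt hu
    have h3 : |(z p + u).re| ≤ |(z p).re| + |u.re| := by
      rw [Complex.add_re]; exact abs_add_le _ _
    have h4 : |(z p + u).im - η| ≤ |(z p).im - η| + |u.im| := by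
      rw [Complex.add_im]
      have := abs_add_le ((z p).im - η) u.im
      rwa [show (z p).im - η + u.im = (z p).im + u.im - η by ring] at this
    have k1 := hδ1 p hp
    have k2 := hδ2 p hp
    have k3 := hδ3 p hp
    have k4 := hδ4 p hp
    exact ⟨⟨by linarith, by linarith⟩, ⟨by linarith, by linarith⟩⟩
  have hR13 : Rz η ρ τ ⊆ Rz η (3 * ρ) (3 * τ) := Rz_mono (by linarith) (by linarith)
  have hKz13 : Kz η ρ τ ⊆ Rz η (3 * ρ) (3 * τ) := by
    intro w hw
    rw [Kz_mem] at hw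
    exact ⟨by linarith [hw.1], by linarith [hw.2]⟩
  have hKz23 : Kz η (2 * ρ) (2 * τ) ⊆ Rz η (3 * ρ) (3 * τ) := by
    intro w hw
    rw [Kz_mem] at hw
    exact ⟨by linarith [hw.1], by linarith [hw.2]⟩
  -- bounds
  obtain ⟨B, hB⟩ := (hK.prod (Kz_compact η ρ τ)).exists_bound_of_continuousOn
    (hqc.mono (Set.prod_mono subset_rfl hKz13))
  have hBR : ∀ p ∈ K, ∀ w ∈ Rz η ρ τ, ‖qz (Φ p) w‖ ≤ B := by
    intro p hp w hw
    exact hB (p, w) ⟨hp, by rw [Kz_mem]; exact ⟨hw.1.le, hw.2.le⟩⟩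
  have hc2 : ContinuousOn (fun p => deriv (deriv (qz (Φ p))) (z p)) K := by
    refine cont2g (g := fun p => qz (Φ p)) (isOpen_Rz η (2 * ρ) (2 * τ))
      (Kz_compact η (2 * ρ) (2 * τ)) ?_ ?_ (hqc.mono (Set.prod_mono subset_rfl hKz23)) hK hzc ?_
    · intro w hw
      rw [Kz_mem]
      exact ⟨hw.1.le, hw.2.le⟩
    · intro p hp
      exact (hqd p hp).mono (Rz_mono (by linarith) (by linarith))
    · intro p hp
      exact Rz_mono (by linarith) (by linarith) (hz p hp)
  obtain ⟨c, hc0, hc⟩ := Pool.Agent.W688.AX.unif_neg hK hne hc2 hneg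
  obtain ⟨q, hq⟩ : ∃ q : ℂ → ℂ → ℂ, q = fun p u => qz (Φ p) (z p + u) - qz (Φ p) (z p) :=
    ⟨_, rfl⟩
  have hd1 : ∀ p, deriv (q p) = fun u => deriv (qz (Φ p)) (z p + u) := by
    intro p
    funext u
    rw [hq]
    show deriv (fun u => qz (Φ p) (z p + u) - qz (Φ p) (z p)) u = _
    rw [deriv_sub_const, deriv_comp_const_add]
  have hd2 : ∀ p, deriv (deriv (q p)) 0 = deriv (deriv (qz (Φ p))) (z p) := by
    intro p
    rw [hd1, deriv_comp_const_add, add_zero]
  have hcond : ∀ p ∈ V, DifferentiableOn ℂ (q p) (ball 0 δ) ∧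
      (∀ u ∈ ball (0 : ℂ) δ, ‖q p u‖ ≤ 2 * B) ∧
      q p 0 = 0 ∧ deriv (q p) 0 = 0 ∧ (deriv (deriv (q p)) 0).re ≤ -c := by
    intro p hpV
    have hp := hVK hpV
    refine ⟨?_, ?_, ?_, ?_, ?_⟩
    · rw [hq]
      refine DifferentiableOn.sub_const ?_ _
      exact (hqd p hp).comp (by fun_prop) (fun u hu => hR13 (hball p hp u hu).1)
    · intro u hu
      rw [hq]
      show ‖qz (Φ p) (z p + u) - qz (Φ p) (z p)‖ ≤ 2 * B
      have := norm_sub_le (qz (Φ p) (z p + u)) (qz (Φ p) (z p))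
      have h1 := hBR p hp _ (hball p hp u hu).1
      have h2 := hBR p hp _ (hz p hp)
      linarith
    · rw [hq]
      show qz (Φ p) (z p + 0) - qz (Φ p) (z p) = 0
      rw [add_zero, sub_self]
    · rw [hd1]
      show deriv (qz (Φ p)) (z p + 0) = 0
      rw [add_zero, hcrit p hp]
    · rw [hd2]
      exact hc p hp
  obtain ⟨δ', hδ', hδδ, hLap⟩ := Pool.Agent.W719.AX.f_LX δ (2 * B) c hδ0 hc0
  obtain ⟨δ'', hδ''⟩ : ∃ δ'' : ℝ, δ'' = min δ' (δ / 2) := ⟨_, rfl⟩
  have hδ''0 : 0 < δ'' := by rw [hδ'']; exact lt_min hδ' (by linarith)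
  have hδ''1 : δ'' ≤ δ' := by rw [hδ'']; exact min_le_left _ _
  have hδ''2 : δ'' ≤ δ / 2 := by rw [hδ'']; exact min_le_right _ _
  -- the amplitude
  obtain ⟨H, hH⟩ : ∃ H : ℕ → ℂ × ℂ → ℂ, H = fun (N : ℕ) (x : ℂ × ℂ) =>
    (n N * Complex.exp (-(N * Φ x.1 (z x.1 + x.2))) * PL N x.1 (z x.1 + x.2)) *
      (2 * Complex.sin (z x.1 + x.2)) := ⟨_, rfl⟩
  obtain ⟨h, hh⟩ : ∃ h : ℕ → ℂ × ℂ → ℂ, h = cv (fun n (x : ℂ × ℂ) => A n (x.1, z x.1 + x.2))
    (fun n x => if n = 0 then 2 * Complex.sin (z x.1 + x.2) else 0) := ⟨_, rfl⟩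
  obtain ⟨Bs, hBs⟩ := (Kz_compact η ρ τ).exists_bound_of_continuousOn
    (show ContinuousOn (fun w : ℂ => 2 * Complex.sin w) (Kz η ρ τ) from by fun_prop)
  have hHh : UX H h (V ×ˢ ball (0 : ℂ) δ) := by
    rw [hH, hh]
    have u1 := ux_comp hA (fun x : ℂ × ℂ => (x.1, z x.1 + x.2)) (V ×ˢ ball (0 : ℂ) δ)
      (fun x hx => ⟨hx.1, (hball x.1 (hVK hx.1) x.2 hx.2).2⟩)
    have u2 := ux_cst (fun x : ℂ × ℂ => 2 * Complex.sin (z x.1 + x.2))
      (V ×ˢ ball (0 : ℂ) δ) Bs (fun x hx => by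
        have h1 := (hball x.1 (hVK hx.1) x.2 hx.2).1
        exact hBs _ (by rw [Kz_mem]; exact ⟨h1.1.le, h1.2.le⟩))
    exact Pool.Agent.W303.AX.uxmul _ _ _ _ _ _ u1 u2
  have hcont : ∀ᶠ N : ℕ in atTop, ∀ p ∈ V, ContinuousOn (fun u => H N (p, u)) (ball 0 δ) := by
    refine Eventually.of_forall fun N p hpV => ?_
    have hp := hVK hpV
    rw [hH]
    have c1 : ContinuousOn (fun u : ℂ => z p + u) (ball 0 δ) := by fun_prop
    have c2 : ContinuousOn (fun u : ℂ => Φ p (z p + u)) (ball 0 δ) :=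
      (hΦ p hp).continuousOn.comp c1 (fun u hu => hR13 (hball p hp u hu).1)
    have c3 : ContinuousOn (fun u : ℂ => PL N p (z p + u)) (ball 0 δ) :=
      (hPL N p hp).continuous.comp_continuousOn c1
    have c4 : ContinuousOn (fun u : ℂ => Complex.sin (z p + u)) (ball 0 δ) :=
      Complex.continuous_sin.comp_continuousOn c1
    exact ((continuousOn_const.mul (continuousOn_const.mul c2).neg.cexp).mul c3).mul
      (continuousOn_const.mul c4)
  have hdiff : ∀ n, ∀ p ∈ V, DifferentiableOn ℂ (fun u => h n (p, u)) (ball 0 δ) := by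
    intro n p hpV
    have hp := hVK hpV
    have c1 : DifferentiableOn ℂ (fun u : ℂ => z p + u) (ball 0 δ) := by fun_prop
    have d2 : ∀ i : ℕ, DifferentiableOn ℂ (fun u : ℂ => A i (p, z p + u)) (ball 0 δ) :=
      fun i => (hAd i p hpV).comp c1 (fun u hu => (hball p hp u hu).2)
    have d3 : ∀ i : ℕ, DifferentiableOn ℂ (fun u : ℂ =>
        if i = 0 then 2 * Complex.sin (z p + u) else 0) (ball 0 δ) := by
      intro i
      by_cases hi : i = 0
      · simp only [hi, if_true]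
        fun_prop
      · simp only [hi, if_false]
        exact differentiableOn_const _
    rw [hh]
    simp only [cv]
    exact DifferentiableOn.fun_sum fun j _ => (d2 j).mul (d3 _)
  obtain ⟨A', hA', hA'0⟩ := hLap δ'' hδ''0 hδ''1 ℂ V q H h hcond hcont hdiff hHh
  obtain ⟨κ', hκ', hW⟩ := loc_zu hρ hρ1 hτ hητ hK hP hPL hper hΦc hzc hmw hz hline hκ hfar hrem
    hδ''0 (fun p hp => by have := hδ1 p hp; linarith)
  refine ⟨A', ?_, ux_small hA' (fun K' => ⟨1, ?_⟩)⟩
  · intro p hpV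
    have hp := hVK hpV
    rw [hA'0 p hpV, hd2]
    have hh0 : h 0 (p, 0) = A 0 (p, z p) * (2 * Complex.sin (z p)) := by
      rw [hh]
      simp [cv]
    rw [hh0]
    have hsin : Complex.sin (z p) ≠ 0 := by
      intro h0
      obtain ⟨k, hk⟩ := Complex.sin_eq_zero_iff.1 h0
      have : (z p).im = 0 := by
        rw [hk]
        have : (k : ℂ) * π = ((k * π : ℝ) : ℂ) := by push_cast; ring
        rw [this, Complex.ofReal_im]
      linarith [hz0 p hp]
    refine mul_ne_zero (mul_ne_zero (hAnz _ ⟨hpV, hz3 p hp⟩) (mul_ne_zero two_ne_zero hsin)) ?_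
    rw [Ne, Complex.cpow_eq_zero_iff]
    rintro ⟨h5, -⟩
    have h6 : deriv (deriv (qz (Φ p))) (z p) ≠ 0 := by
      intro h7
      have := hneg p hp
      rw [h7] at this
      simp at this
    have h8 : (2 * (π : ℂ)) ≠ 0 := by
      have := Complex.ofReal_ne_zero.2 Real.pi_ne_zero
      exact mul_ne_zero two_ne_zero this
    exact (div_ne_zero h8 (neg_ne_zero.2 h6)) h5
  · filter_upwards [hW, exp_small (κ' / 2) (by positivity) 1 K', eventually_ge_atTop 1,
      hn (κ' / 2) (by positivity)] with N h1 h2 h3 h4 p hpV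
    have hp := hVK hpV
    have hN1 : (1 : ℝ) ≤ N := by exact_mod_cast h3
    have e1 : (Real.sqrt N : ℂ) * ∫ x in (-δ'')..δ'', Complex.exp (N * q p x) * H N (p, x) =
        n N * (Real.sqrt N : ℂ) * (-1) ^ N *
          Complex.exp (-(N * qz (Φ p) (z p))) * ((-1) ^ N * ∫ x in (-δ'')..δ'',
            2 * Complex.sin (z p + x) * Complex.exp (Complex.I * N * (z p + x)) *
              PL N p (z p + x)) := by
      have hsgn : (-1 : ℂ) ^ N * (-1) ^ N = 1 := by
        rw [← pow_add, ← two_mul, pow_mul]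
        norm_num
      have e2 : n N * (Real.sqrt N : ℂ) * (-1) ^ N *
          Complex.exp (-(N * qz (Φ p) (z p))) * ((-1) ^ N * ∫ x in (-δ'')..δ'',
            2 * Complex.sin (z p + x) * Complex.exp (Complex.I * N * (z p + x)) *
              PL N p (z p + x)) =
          (Real.sqrt N : ℂ) * ((n N * Complex.exp (-(N * qz (Φ p) (z p)))) *
            ∫ x in (-δ'')..δ'',
            2 * Complex.sin (z p + x) * Complex.exp (Complex.I * N * (z p + x)) *
              PL N p (z p + x)) := by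
        linear_combination (n N * (Real.sqrt N : ℂ) * Complex.exp (-(N * qz (Φ p) (z p))) *
          ∫ x in (-δ'')..δ'',
            2 * Complex.sin (z p + x) * Complex.exp (Complex.I * N * (z p + x)) *
              PL N p (z p + x)) * hsgn
      rw [e2]
      congr 1
      rw [← intervalIntegral.integral_const_mul]
      apply intervalIntegral.integral_congr
      intro x _
      show Complex.exp (N * q p x) * H N (p, x) = _
      rw [hq, hH]
      show Complex.exp (N * (qz (Φ p) (z p + x) - qz (Φ p) (z p))) * ((n N *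
        Complex.exp (-(N * Φ p (z p + x))) * PL N p (z p + x)) * (2 * Complex.sin (z p + x))) =
        (n N * Complex.exp (-(N * qz (Φ p) (z p)))) *
          (2 * Complex.sin (z p + x) * Complex.exp (Complex.I * N * (z p + x)) *
            PL N p (z p + x))
      have e3 : Complex.exp (N * (qz (Φ p) (z p + x) - qz (Φ p) (z p))) *
          Complex.exp (-(N * Φ p (z p + x))) =
          Complex.exp (-(N * qz (Φ p) (z p))) * Complex.exp (Complex.I * N * (z p + x)) := by
        rw [← Complex.exp_add, ← Complex.exp_add]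
        congr 1
        unfold qz
        ring
      linear_combination (n N * PL N p (z p + x) *
        (2 * Complex.sin (z p + x))) * e3
    rw [e1, ← mul_sub, norm_mul]
    have e7 : ‖n N * (Real.sqrt N : ℂ) * (-1) ^ N *
        Complex.exp (-(N * qz (Φ p) (z p)))‖ = ‖n N‖ * Real.sqrt N *
          Real.exp (-(N * (qz (Φ p) (z p)).re)) := by
      rw [norm_mul, norm_mul, norm_mul, norm_pow, norm_neg, norm_one, one_pow, mul_one,
        Complex.norm_real, Real.norm_of_nonneg (Real.sqrt_nonneg _), Complex.norm_exp]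
      congr 2
      simp
    rw [e7]
    have e8 : Real.sqrt N ≤ N := by
      rw [Real.sqrt_le_left (by positivity)]
      nlinarith
    calc ‖n N‖ * Real.sqrt N * Real.exp (-(N * (qz (Φ p) (z p)).re)) * _
        ≤ Real.exp (κ' / 2 * N) * N * Real.exp (-(N * (qz (Φ p) (z p)).re)) *
          Real.exp (N * ((qz (Φ p) (z p)).re - κ')) := by
          have := h1 p hp
          gcongr
      _ = (N : ℝ) ^ 1 * Real.exp (-(κ' / 2 * N)) := by
          rw [pow_one]
          have e9 : Real.exp (-(κ' / 2 * N)) = Real.exp (κ' / 2 * N) *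
              Real.exp (-(N * (qz (Φ p) (z p)).re)) *
              Real.exp (N * ((qz (Φ p) (z p)).re - κ')) := by
            rw [← Real.exp_add, ← Real.exp_add]
            congr 1
            ring
          rw [e9]
          ring
      _ ≤ 1 / (N : ℝ) ^ K' := h2

end Pool.Agent.TH790.V
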